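import Pool.Agent.T6.H67.FP.Main

/-!
# The four-point relation and the Abel–Jacobi map for zero-cycles

Let `𝒱` be a class of smooth proper (e.g. projective) varieties over an algebraically closed field
`k` which is closed under products, with Chow groups `C` (rational coefficients), a Weil cohomology
theory `W` and Abel–Jacobi maps `A` (`AJTheory` in `Pool/Agent/T6/H15/AJ/Defs.lean`); for example
`k` is the field of algebraic numbers. The properties of `k` and `𝒱` that are used are that
zero-cycles on products are sums of external products (`PointsArePairs`), and that closed points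
have degree one, that the diagonal maps `x` to `(x, x)` and that two closed points of a variety are
joined by a curve (`HasPoints`).

The following are equivalent:
1. the Abel–Jacobi map is injective on the zero-cycles of degree zero on `X`, for all `X` which are
   dominated by products of curves;
2. it is injective on the zero-cycles of degree zero on the squares `E × E` of the curves `E`;
3. `y × y = 0` in `CH^2(E × E)` for all zero-cycles `y` of degree zero on curves `E`;
4. `x × y = 0` for all zero-cycles `x` and `y` of degree zero on arbitrary varieties `X` and `Y`;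
5. `Δ_* z = [o] × z + z × [o]` for all points `o` of `X` and all zero-cycles `z` of degree zero
   on `X`, where `Δ` is the diagonal of `X`, for all `X`;
6. the four-point relation `[(x,x)] + [(y,y)] = [(x,y)] + [(y,x)]` holds for all points `x` and `y`
   of all varieties `X`;
7. the four-point relation holds for the curves with two points `(F, r, s)` of a test class `T`.

Here `T` is any class of curves with two points such that, for all curves `E` and `E'` with points
`x, y` and `x', y'`, there are `(F, r, s)` in `T` and a morphism `F → E × E'` which maps `r` to
`(x, x')` and `s` to `(y, y')`.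
-/

open Pool.Agent.H914 Pool.Agent.H914.VarClass.Obj Pool.Agent.R903 Pool.Agent.T6.H15.BB
open Pool.Agent.T6.H15.AJ Pool.Agent.T6.H67.FP

universe u v w

namespace Pool.Agent.Results.MP_537ea0_ag.FourPoints

theorem result {k : Type u} [Field k] {𝒱 : VarClass k} {C : ChowTheory.{u, v} 𝒱}
    (hC : C.Polarized) (hP : PointsArePairs C) (hp : HasPoints C) {W : WeilTheory.{u, v, w} C}
    (A : AJTheory W) (T : PointPair 𝒱 → Prop) (hT : IsTestClass C T) :
    [ ∀ X : 𝒱.Obj, DomByCurves C X → InjOnHom A X X.dim,
      ∀ E : 𝒱.Obj, E.dim = 1 → InjOnHom A (E.prod E) 2,
      ∀ (E : 𝒱.Obj) (y : C.CH E), E.dim = 1 → HomTrivial W E 1 y → IsNull (extProd C y y),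
      ∀ (X Y : 𝒱.Obj) (x : C.CH X) (y : C.CH Y), HomTrivial W X X.dim x →
        HomTrivial W Y Y.dim y → IsNull (extProd C x y),
      ∀ (X : 𝒱.Obj) (o : Pt X) (z : C.CH X), IsClosedPt X o → HomTrivial W X X.dim z →
        IsSumOf (applyLin (C.push (diag X)) z) (extProd C (ptCls C X o) z)
          (extProd C z (ptCls C X o)),
      ∀ (X : 𝒱.Obj) (x y : Pt X), IsClosedPt X x → IsClosedPt X y → FourPoint C X x y,
      ∀ t, T t → FourPoint C t.E t.x t.y ].TFAE :=
  four_tfae hC hP hp A T hT

end Pool.Agent.Results.MP_537ea0_ag.FourPoints
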