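import Pool.Agent.T6.H33.QP.Main

/-!
# The Abel-Jacobi map of open varieties in codimension two

Let `k = 2`, or `k = 1`, or `k = dim V`. **If the rational Abel-Jacobi map `Φ_k` is injective for a smooth projective
compactification `X` over `ℚ̄` of a smooth quasi-projective variety `V` (such that `X ∖ V` is a divisor with strict normal
crossings), then it is injective for `V`.** So for these `k`, in particular in codimension two, and in all codimensions for the
varieties of dimension at most three, Q1 for all smooth quasi-projective varieties is equivalent to Q1 for all smooth projective
varieties. No conjecture (Hodge conjecture, standard conjectures) is assumed.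

*The data.* `𝓗` is the category of rational mixed Hodge structures and `I = ℚ(0)`; `Ext I H 1` are Mathlib's Ext groups of this
abelian category, so that `J^k(V) ⊗ ℚ = Ext I (H^(2k-1)(V)(k)) 1`. `ω` is the underlying vector space. `Cycles I` stands for a
smooth variety with its Chow group of codimension `k`, cycle class and Abel-Jacobi map, and `Cycles.Injective` is the statement
of Q1 for it.

`IsCompactification ω V X` lists the known facts on the pair, with the disjoint union `D` of the components of `X ∖ V` and the
number `k - 1` on `D`:
* `IsLocalisation`: the localisation sequence `CH^(k-1)(D) → CH^k(X) → CH^k(V) → 0` (with rational coefficients);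
* `IsExact`: the exact sequence of mixed Hodge structures of the pair `(X, V)`; by Deligne's theory of weights the classes with
  support in `X ∖ V` have in the pure Hodge structure `H^(2k-1)(X)(k)` the same image as `H^(2k-3)(D)(k-1)`;
* `IsHodge`: the Hodge classes in the cohomology with support come from Hodge classes of degree `2k - 2` on `D` (weights and
  semisimplicity), and these are algebraic: by Lefschetz for `k = 2`, trivially for `k = 1` and `k = dim V`;
* `IsCompatible`: the compatibility of the cycle class and the Abel-Jacobi map with the Gysin maps and restrictions, and the
  description of the Abel-Jacobi class of a cycle with support in `X ∖ V` as a pull-back of the extension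
  `0 → A → H^(2k-1)(V)(k) → B → 0` (Carlson's description used in the problem);
* `Adjoint.IsAdjoint`: the Gysin map `g` from `H^(2k-3)(D)(k-1)` to `H^(2k-1)(X)(k)` has an adjoint `s` with respect to
  polarisations, which is given by an algebraic correspondence. For `k = 2` this is `(L^(d-2))⁻¹ i^* ⋆`, where the inverse of
  `L^(d-2) : H^1(D) → H^(2d-3)(D)` and the star operator on `H^3(X)` (the projection to `L H^1(X)`) are algebraic by the theorem
  of Lieberman and Kleiman on the standard conjecture of Lefschetz type in degree one; for `k = dim V` it is the adjoint of the
  homomorphism `Alb(D) → Alb(X)`.

*The proof.* A class `v` in `CH^k(V)` in the kernel of `Φ_k` is lifted to `X`. The lift is changed by cycles with support in `X ∖ V`,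
first such that it is homologically trivial, then such that its Abel-Jacobi class has the image zero in `Ext¹(I, A)` (here one
uses the long exact sequence of the Ext groups and the algebraicity of Hodge classes again). Then the Abel-Jacobi class is in
the image of `Ext¹(I, ker)`, the kernel being the image of the Gysin map `g`. The endomorphism `φ = s g` of `H^(2k-3)(D)(k-1)`
is self-adjoint for a polarisation, so the images of `φ` and of sub-Hodge structures have no vector in the kernel, and there is a
polynomial `P` with rational coefficients such that `r = P(φ) s` satisfies `g r g = g`. As `r` is given by an algebraic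
correspondence, the Abel-Jacobi class of the lift is the one of a cycle with support in `X ∖ V`. Hence the injectivity for `X` shows
that `v = 0`.
-/

set_option autoImplicit false

open CategoryTheory CategoryTheory.Abelian Pool.Agent.T6.H33.QP

universe w v u

namespace Pool.Agent.Results.MP_537ea0_ag.OpenVarieties

/-- (1) If the Abel-Jacobi map is injective for a compactification `X` of `V`, then it is injective for `V`. (2) Let `Var` be a
class of smooth varieties with numbers `k`, such that every member has a compactification (with the same `k`) in the subclass
`Proj` of the projective ones. Then the Abel-Jacobi map is injective for all members of `Var` if and only if it is injective for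
all members of `Proj`. -/
theorem result {𝓗 : Type u} [Category.{v} 𝓗] [Abelian 𝓗] [Linear ℚ 𝓗] [HasExt.{w} 𝓗] (I : 𝓗)
    (ω : 𝓗 ⥤ ModuleCat.{0} ℚ) (hω : IsRealisation ω) :
    (∀ V X : Cycles I, IsCompactification ω V X → X.Injective → V.Injective) ∧
      ∀ (Var : Type) (C : Var → Cycles I) (Proj : Var → Prop),
        (∀ V, ∃ X, Proj X ∧ IsCompactification ω (C V) (C X)) →
          ((∀ V, (C V).Injective) ↔ ∀ X, Proj X → (C X).Injective) := by
  have h1 : ∀ V X : Cycles I, IsCompactification ω V X → X.Injective → V.Injective := by
    rintro V X ⟨D, P, a, h, hl, hh, hc, ha⟩ hX
    exact main hω hc hl hh ha hX
  refine ⟨h1, fun Var C Proj hC => ⟨fun h X _ => h X, fun h V => ?_⟩⟩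
  obtain ⟨X, hX, hVX⟩ := hC V
  exact h1 _ _ hVX (h X hX)

end Pool.Agent.Results.MP_537ea0_ag.OpenVarieties
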