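import Pool.Agent.T6.H15.AJ.Zero

/-!
# Abel–Jacobi maps for zero-cycles on products of two curves

Let `𝒱` be a class of smooth proper (e.g. projective) varieties over an algebraically closed field
`k` which is closed under products, with Chow groups `C` (rational coefficients), a Weil cohomology
theory `W` and Abel–Jacobi maps `A` (`AJTheory` in `Pool/Agent/T6/H15/AJ/Defs.lean`); for example
`k` is the field of algebraic numbers. The only property of `k` that is used is that zero-cycles on
products are sums of external products of zero-cycles (`PointsArePairs`).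

The following are equivalent:
* the Abel–Jacobi map is injective on the zero-cycles of degree zero on `E × E'`, for all curves
  `E` and `E'`;
* it is injective on the zero-cycles of degree zero on `X`, for all `X` which are dominated by
  products of curves;
* `D D' = 0` for all algebraically trivial divisor classes `D` and `D'` on surfaces;
* `x y = 0` for all algebraically trivial classes `x` and `y` on the same variety;
* `x × y = 0` for all algebraically trivial classes `x` and `y`;
* algebraically trivial correspondences kill the algebraically trivial classes;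
* for all curves `E` and `E'` with classes `e` and `e'` of degree one, the zero-cycles on `E × E'` are
  `e × b + a × e'` with `a` in `CH^1(E)` and `b` in `CH^1(E')`; if `e` and `e'` are the classes of
  points `p` and `p'`, this says that `CH^2((E - p) × (E' - p')) = 0`.
-/

open Pool.Agent.H914 Pool.Agent.H914.VarClass.Obj Pool.Agent.R903 Pool.Agent.T6.H15.BB
open Pool.Agent.T6.H15.AJ

universe u v w

namespace Pool.Agent.Results.MP_537ea0_ag.ProductsOfCurves

theorem result {k : Type u} [Field k] {𝒱 : VarClass k} {C : ChowTheory.{u, v} 𝒱}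
    (hC : C.Polarized) (hP : PointsArePairs C) {W : WeilTheory.{u, v, w} C} (A : AJTheory W) :
    [ ∀ E E' : 𝒱.Obj, E.dim = 1 → E'.dim = 1 → InjOnHom A (E.prod E') 2,
      ∀ X : 𝒱.Obj, DomByCurves C X → InjOnHom A X X.dim,
      ∀ (S : 𝒱.Obj) (D D' : C.CH S), S.dim = 2 → AlgTrivial W S 1 D → AlgTrivial W S 1 D' →
        D * D' = 0,
      ∀ (X : 𝒱.Obj) (m n : ℕ) (x y : C.CH X), AlgTrivial W X m x → AlgTrivial W X n y →
        x * y = 0,
      ∀ (X Y : 𝒱.Obj) (m n : ℕ) (x : C.CH X) (y : C.CH Y), AlgTrivial W X m x →
        AlgTrivial W Y n y → extProd C x y = 0,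
      ∀ (X Y : 𝒱.Obj) (m c : ℕ) (x : C.CH X) (γ : C.CH (X.prod Y)), AlgTrivial W X m x →
        AlgTrivial W (X.prod Y) c γ → corrAct C γ x = 0,
      ∀ (E E' : 𝒱.Obj) (e : C.CH E) (e' : C.CH E'), E.dim = 1 → E'.dim = 1 → InCH C E 1 e →
        InCH C E' 1 e' → C.deg E e = 1 → C.deg E' e' = 1 → ∀ x, InCH C (E.prod E') 2 x →
        ∃ (a : C.CH E) (b : C.CH E'), InCH C E 1 a ∧ InCH C E' 1 b ∧
          x = extProd C e b + extProd C a e' ].TFAE :=
  zero_tfae A hC hP

end Pool.Agent.Results.MP_537ea0_ag.ProductsOfCurves
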