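import Pool.Agent.T6.H67.FP.Alg

/-!
# Algebraically trivial cycles and test curves

Let `𝒱` be a class of smooth proper (e.g. projective) varieties over an algebraically closed field
`k` which is closed under products, with Chow groups `C` (rational coefficients), a Weil cohomology
theory `W` and Abel–Jacobi maps `A` (`AJTheory` in `Pool/Agent/T6/H15/AJ/Defs.lean`); for example
`k` is the field of algebraic numbers. Let `T` be any cofinal class of curves with two closed
points: every curve with two points is dominated by one in `T`. The following are equivalent: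

1. the Abel–Jacobi maps are injective on the algebraically trivial classes in `CH^m(X)`, for all
   `X` and `m`;
2. the same if `dim X = 2m - 1`;
3. for all `(F, r, s)` in `T` and all `X` and `m`: the homologically trivial families `γ` in
   `CH^m(F × X)` have equal members `γ_* [r] = γ_* [s]`;
4. the same if `dim X = 2m - 1`;
5. for all `(F, r, s)` in `T`, all `X`, `m` and all homologically trivial `z` in `CH^m(X)`:
   `[r] × z = [s] × z` in `CH^(m+1)(F × X)`;
6. the same if `dim X = 2m`.

If `k` is the field of algebraic numbers, then by Belyi's theorem (not formalised) the class of the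
curves `X_G`, `G` of finite index in `Γ(2)`, with two cusps is cofinal: for a curve `E` and two
points there is a map from `E` to the projective line which is unramified outside `0`, `1`, `∞` and
maps both points to `0`.
-/

open Pool.Agent.H914 Pool.Agent.H914.VarClass.Obj Pool.Agent.R903 Pool.Agent.T6.H15.BB
open Pool.Agent.T6.H15.AJ Pool.Agent.T6.H67.FP

universe u v w

namespace Pool.Agent.Results.MP_537ea0_ag.TestCurves

theorem result {k : Type u} [Field k] {𝒱 : VarClass k} {C : ChowTheory.{u, v} 𝒱}
    (hC : C.Polarized) (hp : PointsHaveDegreeOne C) {W : WeilTheory.{u, v, w} C}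
    (A : AJTheory W) (T : PointPair 𝒱 → Prop) (hT : IsCofinal C T) :
    [ ∀ (X : 𝒱.Obj) (m : ℕ), InjOnAlg A X m,
      ∀ (X : 𝒱.Obj) (m : ℕ), X.dim + 1 = 2 * m → InjOnAlg A X m,
      ∀ t, T t → ∀ (X : 𝒱.Obj) (m : ℕ) (γ : C.CH (t.E.prod X)),
        HomTrivial W (t.E.prod X) m γ → SameMembers C t X γ,
      ∀ t, T t → ∀ (X : 𝒱.Obj) (m : ℕ) (γ : C.CH (t.E.prod X)), X.dim + 1 = 2 * m →
        HomTrivial W (t.E.prod X) m γ → SameMembers C t X γ,
      ∀ t, T t → ∀ (X : 𝒱.Obj) (m : ℕ) (z : C.CH X), HomTrivial W X m z → SameProducts C t X z,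
      ∀ t, T t → ∀ (X : 𝒱.Obj) (m : ℕ) (z : C.CH X), X.dim = 2 * m → HomTrivial W X m z →
        SameProducts C t X z ].TFAE :=
  alg_tfae hC hp A T hT

end Pool.Agent.Results.MP_537ea0_ag.TestCurves
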